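import Mathlib

/-! Explicit 3-graphs on `3n` vertices with `n ^ 3 + 1` edges (`n = 4` and `n = 5`) in which
every nine vertices span at most 27 edges. -/

namespace Pool.Agent.Results.MP_295a7b_co.Sparse9

/-- The vertex set coded by the binary digits of `m`. -/
def edgeOf (N m : ℕ) : Finset (Fin N) := Finset.univ.filter (fun i => m.testBit i = true)

/-- The set system coded by a list of numbers. -/
def graphOf (N : ℕ) (L : List ℕ) : Finset (Finset (Fin N)) := (L.map (edgeOf N)).toFinset

def L4 : List ℕ := [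
  259, 515, 2051, 13, 37, 261, 517, 25, 2057, 49, 81, 1057, 193, 577, 1153, 1281, 2561, 3073,
  22, 70, 134, 1030, 42, 138, 2058, 146, 530, 98, 162, 546, 2306, 1538, 268, 84, 1060, 324,
  1092, 644, 2180, 2564, 88, 280, 536, 552, 584, 1160, 2184, 1288, 176, 304, 1104, 2192, 2320,
  3088, 224, 2144, 416, 2336, 2592, 448, 2368, 1600, 896, 3200, 1792]

def L5 : List ℕ := [
  19, 35, 259, 4099, 13, 133, 1029, 16389, 41, 73, 4105, 145, 4129, 16417, 2113, 8257, 16449,
  641, 8449, 2561, 8705, 3073, 5121, 9217, 18433, 22, 70, 1030, 8198, 138, 1034, 8202, 50, 530,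
  162, 2082, 322, 2114, 2178, 8322, 770, 4354, 8706, 16898, 5122, 17410, 76, 524, 84, 276,
  16404, 548, 2084, 4132, 8228, 2116, 644, 772, 1284, 16644, 5124, 20484, 24580, 56, 88, 152,
  296, 552, 328, 1160, 8328, 2312, 4360, 16648, 1544, 2568, 20488, 24584, 4144, 8240, 1104,
  2128, 8272, 2192, 4240, 1296, 16656, 1552, 16912, 6160, 18448, 12304, 608, 1120, 8288, 416,
  672, 16544, 16672, 9248, 17440, 6176, 704, 1216, 4288, 16576, 4416, 8512, 4672, 16960, 896,
  2432, 9344, 17536, 10368, 18560, 20608, 2816, 8960, 3328, 9472, 5632, 12800, 7168, 14336,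
  26624]

/-- Branch over the vertices left out. -/
def chk : ℕ → ℕ → List ℕ → Bool
  | 0, k, L => (k != 0) || decide (L.length ≤ 27)
  | _ + 1, 0, L => decide (L.length ≤ 27)
  | i + 1, k + 1, L => decide (L.length ≤ 27) ||
      (chk i (k + 1) L && chk i k (L.filter (fun e => !(e.testBit i))))

theorem chk_sound : ∀ (i k : ℕ) (L : List ℕ), chk i k L = true → ∀ X : Finset ℕ,
    (∀ x ∈ X, x < i) → X.card = k →
    (L.filter (fun e => decide (∀ x ∈ X, e.testBit x = false))).length ≤ 27 := by
  intro i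
  induction i with
  | zero =>
    intro k L h X hX hk
    have hX0 : X = ∅ := Finset.eq_empty_of_forall_notMem (fun x hx => by simpa using hX x hx)
    subst hX0
    simp only [Finset.card_empty] at hk
    subst hk
    simp only [chk] at h
    exact (List.length_filter_le _ _).trans (by simpa using h)
  | succ i ih =>
    intro k L h X hX hk
    rcases k with _ | k
    · simp only [chk] at h
      exact (List.length_filter_le _ _).trans (by simpa using h)
    · simp only [chk, Bool.or_eq_true, Bool.and_eq_true, decide_eq_true_eq] at h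
      rcases h with h | ⟨h1, h2⟩
      · exact (List.length_filter_le _ _).trans h
      · by_cases hi : i ∈ X
        · have h3 := ih k _ h2 (X.erase i) (by
            intro x hx
            have h4 := hX x (Finset.mem_of_mem_erase hx)
            have h5 := Finset.ne_of_mem_erase hx
            omega) (by rw [Finset.card_erase_of_mem hi]; omega)
          rw [List.filter_filter] at h3
          refine le_trans (le_of_eq ?_) h3
          congr 1
          apply List.filter_congr
          intro e _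
          rw [Bool.eq_iff_iff]
          simp only [decide_eq_true_eq, Bool.and_eq_true, Bool.not_eq_true',
            Finset.mem_erase]
          constructor
          · intro h
            exact ⟨fun x hx => h x hx.2, h i hi⟩
          · rintro ⟨h6, h7⟩ x hx
            by_cases hxi : x = i
            · rw [hxi]; exact h7
            · exact h6 x ⟨hxi, hx⟩
        · refine ih (k + 1) L h1 X ?_ hk
          intro x hx
          have h4 := hX x hx
          have h5 : x ≠ i := fun h => hi (h ▸ hx)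
          omega

theorem edgeOf_inj (N : ℕ) (a b : ℕ) (ha : a < 2 ^ N) (hb : b < 2 ^ N)
    (h : edgeOf N a = edgeOf N b) : a = b := by
  apply Nat.eq_of_testBit_eq
  intro i
  by_cases hi : i < N
  · have h1 := Finset.ext_iff.mp h ⟨i, hi⟩
    simp only [edgeOf, Finset.mem_filter, Finset.mem_univ, true_and] at h1
    rw [Bool.eq_iff_iff]
    exact h1
  · have hi' : N ≤ i := by omega
    rw [Nat.testBit_lt_two_pow (ha.trans_le (Nat.pow_le_pow_right (by norm_num) hi')),
      Nat.testBit_lt_two_pow (hb.trans_le (Nat.pow_le_pow_right (by norm_num) hi'))]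

theorem graph_card (N : ℕ) (L : List ℕ) (hn : L.Nodup) (hlt : ∀ m ∈ L, m < 2 ^ N) :
    (graphOf N L).card = L.length := by
  unfold graphOf
  rw [List.toFinset_card_of_nodup, List.length_map]
  refine List.Nodup.map_on ?_ hn
  intro a ha b hb hab
  exact edgeOf_inj N a b (hlt a ha) (hlt b hb) hab

theorem span_le (N : ℕ) (L : List ℕ) (hN : 9 ≤ N) (hc : chk N (N - 9) L = true)
    (S : Finset (Fin N)) (hS : S.card = 9) :
    ((graphOf N L).filter (fun e => e ⊆ S)).card ≤ 27 := by
  obtain ⟨X, hX⟩ : ∃ X : Finset ℕ, X = (Finset.univ \ S).map Fin.valEmbedding := ⟨_, rfl⟩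
  have h := chk_sound N (N - 9) L hc X (by
    intro x hx
    rw [hX, Finset.mem_map] at hx
    obtain ⟨y, _, rfl⟩ := hx
    exact y.2) (by
    rw [hX, Finset.card_map, Finset.card_sdiff_of_subset (Finset.subset_univ S),
      Finset.card_univ, Fintype.card_fin, hS])
  refine le_trans ?_ h
  refine le_trans (Finset.card_le_card (t := ((L.filter (fun e : ℕ => decide (∀ x ∈
    X, e.testBit x = false))).map (edgeOf N)).toFinset) ?_) ?_
  · intro e he
    rw [Finset.mem_filter] at he
    obtain ⟨he1, he2⟩ := he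
    unfold graphOf at he1
    rw [List.mem_toFinset, List.mem_map] at he1 ⊢
    obtain ⟨m, hm, rfl⟩ := he1
    refine ⟨m, ?_, rfl⟩
    rw [List.mem_filter]
    refine ⟨hm, ?_⟩
    rw [decide_eq_true_eq]
    intro x hx
    rw [hX, Finset.mem_map] at hx
    obtain ⟨y, hy, rfl⟩ := hx
    rw [Finset.mem_sdiff] at hy
    by_contra hne
    have h4 : m.testBit (y : ℕ) = true := by
      simpa using hne
    apply hy.2
    apply he2
    unfold edgeOf
    rw [Finset.mem_filter]
    exact ⟨Finset.mem_univ _, h4⟩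
  · refine (List.toFinset_card_le _).trans ?_
    rw [List.length_map]

theorem no_copy {N : ℕ} (E : Finset (Finset (Fin N)))
    (h : ∀ S : Finset (Fin N), S.card = 9 → (E.filter (fun e => e ⊆ S)).card ≤ 27) :
    ¬ ∃ A B C : Finset (Fin N), A.card = 3 ∧ B.card = 3 ∧ C.card = 3 ∧
      Disjoint A B ∧ Disjoint A C ∧ Disjoint B C ∧
      (∀ a ∈ A, ∀ b ∈ B, ∀ c ∈ C, ({a, b, c} : Finset (Fin N)) ∈ E) ∧
      ∃ e ∈ E, e ⊆ A ∪ B ∪ C ∧
        ¬ ∃ a ∈ A, ∃ b ∈ B, ∃ c ∈ C, e = {a, b, c} := by
  classical
  rintro ⟨A, B, C, hA, hB, hC, hAB, hAC, hBC, hE, e, he, hes, hne⟩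
  have hcard : (A ∪ B ∪ C).card = 9 := by
    rw [Finset.card_union_of_disjoint, Finset.card_union_of_disjoint hAB, hA, hB, hC]
    rw [Finset.disjoint_union_left]
    exact ⟨hAC, hBC⟩
  have h27 := h _ hcard
  let f : Fin N × Fin N × Fin N → Finset (Fin N) := fun p => {p.1, p.2.1, p.2.2}
  have hinj : Set.InjOn f ((A ×ˢ B ×ˢ C : Finset (Fin N × Fin N × Fin N)) : Set _) := by
    rintro ⟨a, b, c⟩ h1 ⟨a', b', c'⟩ h2 heq
    simp only [Finset.coe_product, Set.mem_prod, Finset.mem_coe] at h1 h2
    obtain ⟨ha, hb, hc⟩ := h1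
    obtain ⟨ha', hb', hc'⟩ := h2
    simp only [f] at heq
    have m1 : a ∈ ({a', b', c'} : Finset (Fin N)) := by rw [← heq]; simp
    have m2 : b ∈ ({a', b', c'} : Finset (Fin N)) := by rw [← heq]; simp
    have m3 : c ∈ ({a', b', c'} : Finset (Fin N)) := by rw [← heq]; simp
    simp only [Finset.mem_insert, Finset.mem_singleton] at m1 m2 m3
    rw [Finset.disjoint_left] at hAB hAC hBC
    have e1 : a = a' := by
      rcases m1 with h | h | h
      · exact h
      · exact absurd hb' (h ▸ hAB ha)
      · exact absurd hc' (h ▸ hAC ha)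
    have e2 : b = b' := by
      rcases m2 with h | h | h
      · exact absurd hb (h ▸ hAB ha')
      · exact h
      · exact absurd hc' (h ▸ hBC hb)
    have e3 : c = c' := by
      rcases m3 with h | h | h
      · exact absurd hc (h ▸ hAC ha')
      · exact absurd hc (h ▸ hBC hb')
      · exact h
    rw [e1, e2, e3]
  have himg : ((A ×ˢ B ×ˢ C).image f).card = 27 := by
    rw [Finset.card_image_of_injOn hinj, Finset.card_product, Finset.card_product, hA, hB, hC]
  have hnot : e ∉ (A ×ˢ B ×ˢ C).image f := by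
    intro hmem
    rw [Finset.mem_image] at hmem
    obtain ⟨⟨a, b, c⟩, hp, hpe⟩ := hmem
    rw [Finset.mem_product, Finset.mem_product] at hp
    exact hne ⟨a, hp.1, b, hp.2.1, c, hp.2.2, hpe.symm⟩
  have hsub : insert e ((A ×ˢ B ×ˢ C).image f) ⊆ E.filter (fun e => e ⊆ A ∪ B ∪ C) := by
    intro x hx
    rw [Finset.mem_insert] at hx
    rw [Finset.mem_filter]
    rcases hx with rfl | hx
    · exact ⟨he, hes⟩
    · rw [Finset.mem_image] at hx
      obtain ⟨⟨a, b, c⟩, hp, rfl⟩ := hx
      rw [Finset.mem_product, Finset.mem_product] at hp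
      refine ⟨hE a hp.1 b hp.2.1 c hp.2.2, ?_⟩
      intro y hy
      simp only [f, Finset.mem_insert, Finset.mem_singleton] at hy
      simp only [Finset.mem_union]
      rcases hy with rfl | rfl | rfl
      · exact Or.inl (Or.inl hp.1)
      · exact Or.inl (Or.inr hp.2.1)
      · exact Or.inr hp.2.2
  have hc := Finset.card_le_card hsub
  rw [Finset.card_insert_of_notMem hnot, himg] at hc
  omega

theorem main4 : ∃ E : Finset (Finset (Fin 12)), (∀ e ∈ E, e.card = 3) ∧ E.card = 65 ∧
    ∀ S : Finset (Fin 12), S.card = 9 → (E.filter (fun e => e ⊆ S)).card ≤ 27 := by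
  refine ⟨graphOf 12 L4, ?_, ?_, ?_⟩
  · intro e he
    unfold graphOf at he
    rw [List.mem_toFinset, List.mem_map] at he
    obtain ⟨m, hm, rfl⟩ := he
    have : ∀ m ∈ L4, (edgeOf 12 m).card = 3 := by decide +kernel
    exact this m hm
  · rw [graph_card 12 L4 (by decide +kernel) (by decide +kernel)]
    rfl
  · exact span_le 12 L4 (by norm_num) (by decide +kernel)

theorem main5 : ∃ E : Finset (Finset (Fin 15)), (∀ e ∈ E, e.card = 3) ∧ E.card = 126 ∧
    ∀ S : Finset (Fin 15), S.card = 9 → (E.filter (fun e => e ⊆ S)).card ≤ 27 := by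
  refine ⟨graphOf 15 L5, ?_, ?_, ?_⟩
  · intro e he
    unfold graphOf at he
    rw [List.mem_toFinset, List.mem_map] at he
    obtain ⟨m, hm, rfl⟩ := he
    have : ∀ m ∈ L5, (edgeOf 15 m).card = 3 := by decide +kernel
    exact this m hm
  · rw [graph_card 15 L5 (by decide +kernel) (by decide +kernel)]
    rfl
  · exact span_le 15 L5 (by norm_num) (by decide +kernel)

/-- For `n = 4` and for `n = 5` there is a 3-graph `E` on `3n` vertices with `n ^ 3 + 1` edges
in which every 9 vertices span at most 27 edges; in particular it contains no copy of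
`K_3(3,3,3)` together with a further edge inside its 9 vertices. -/
theorem result : ∀ n : ℕ, n = 4 ∨ n = 5 →
    ∃ E : Finset (Finset (Fin (3 * n))), (∀ e ∈ E, e.card = 3) ∧ E.card = n ^ 3 + 1 ∧
      (∀ S : Finset (Fin (3 * n)), S.card = 9 → (E.filter (fun e => e ⊆ S)).card ≤ 27) ∧
      ¬ ∃ A B C : Finset (Fin (3 * n)), A.card = 3 ∧ B.card = 3 ∧ C.card = 3 ∧
        Disjoint A B ∧ Disjoint A C ∧ Disjoint B C ∧
        (∀ a ∈ A, ∀ b ∈ B, ∀ c ∈ C, ({a, b, c} : Finset (Fin (3 * n))) ∈ E) ∧
        ∃ e ∈ E, e ⊆ A ∪ B ∪ C ∧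
          ¬ ∃ a ∈ A, ∃ b ∈ B, ∃ c ∈ C, e = {a, b, c} := by
  intro n hn
  rcases hn with rfl | rfl
  · obtain ⟨E, h1, h2, h3⟩ := main4
    exact ⟨E, h1, h2, h3, no_copy E h3⟩
  · obtain ⟨E, h1, h2, h3⟩ := main5
    exact ⟨E, h1, h2, h3, no_copy E h3⟩

end Pool.Agent.Results.MP_295a7b_co.Sparse9
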